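import Mathlib

set_option autoImplicit false

namespace Pool.Agent.H.MP_cb6225_lc

inductive Fm (A : Type) : Type
  | eq (U V : List (ℕ ⊕ A))
  | reg (x : ℕ) (R : Language A) (hR : R.IsRegular)
  | lenLe (c : List (ℤ × ℕ)) (k : ℤ)
  | lenEq (c : List (ℤ × ℕ)) (k : ℤ)
  | not (f : Fm A)
  | and (f g : Fm A)
  | or (f g : Fm A)

def ev {A : Type} (h : ℕ → List A) (U : List (ℕ ⊕ A)) : List A := U.flatMap (Sum.elim h fun a => [a])

def Sat {A : Type} (h : ℕ → List A) : Fm A → Prop
  | .eq U V => ev h U = ev h V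
  | .reg x R _ => h x ∈ R
  | .lenLe c k => (c.map fun p => p.1 * ((h p.2).length : ℤ)).sum ≤ k
  | .lenEq c k => (c.map fun p => p.1 * ((h p.2).length : ℤ)).sum = k
  | .not f => ¬ Sat h f
  | .and f g => Sat h f ∧ Sat h g
  | .or f g => Sat h f ∨ Sat h g

def S {A : Type} (f : Fm A) (x : ℕ) : Set (List A) := {w | ∃ h, Sat h f ∧ h x = w}

section

variable {A : Type}

open Classical in
noncomputable def sw (s t : List A) : List A → List A
  | [] => []
  | c :: w => if s <+: c :: w then t ++ sw s t (w.drop (s.length - 1)) else if t <+: c :: w then s ++ sw s t (w.drop (t.length - 1))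
      else c :: sw s t w
termination_by w => w.length
decreasing_by all_goals simp <;> omega

variable {s t : List A}

theorem sw1 (h : s ≠ []) (r : List A) : sw s t (s ++ r) = t ++ sw s t r := by
  obtain ⟨c, s, rfl⟩ := List.exists_cons_of_ne_nil h
  rw [List.cons_append, sw, if_pos (by simp)]
  simp

theorem sw2 (h : s ≠ []) (e : s.length = t.length) (n : s ≠ t) (r : List A) : sw s t (t ++ r) = s ++ sw s t r := by
  obtain ⟨c, t, rfl⟩ := List.exists_cons_of_ne_nil (show t ≠ [] by rintro rfl; simp_all)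
  rw [List.cons_append, sw, if_neg fun k => n ?_, if_pos (by simp)]
  · simp
  · exact (List.prefix_of_prefix_length_le k (List.prefix_append (c :: t) r) e.le).eq_of_length e

theorem sw3 {c : A} {w : List A} (h : ¬ s <+: c :: w) (h' : ¬ t <+: c :: w) : sw s t (c :: w) = c :: sw s t w := by
  rw [sw, if_neg h, if_neg h']

theorem ind (h : s ≠ []) (h' : t ≠ []) {P : List A → Prop} (h0 : P []) (h1 : ∀ r, P r → P (s ++ r)) (h2 : ∀ r, P r → P (t ++ r))
    (h3 : ∀ c w, ¬ s <+: c :: w → ¬ t <+: c :: w → P w → P (c :: w)) (w : List A) : P w := by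
  induction hw : w.length using Nat.strong_induction_on generalizing w with
  | _ n ih =>
  have := List.length_pos_iff.2 h
  have := List.length_pos_iff.2 h'
  by_cases a : s <+: w
  · obtain ⟨r, rfl⟩ := a
    exact h1 r (ih _ (by simp at hw; omega) r rfl)
  by_cases b : t <+: w
  · obtain ⟨r, rfl⟩ := b
    exact h2 r (ih _ (by simp at hw; omega) r rfl)
  rcases w with _ | ⟨c, w⟩
  exacts [h0, h3 c w a b (ih _ (by simp at hw; omega) w rfl)]

def Str (s y z : List A) : Prop := ∃ p q, p ≠ [] ∧ q ≠ [] ∧ s = p ++ q ∧ p <:+ y ∧ q <+: z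
def NO (s t : List A) : Prop := ∀ p u, p ≠ [] → u ≠ [] → s = p ++ u → ¬ u <+: t

theorem sw_app (h : s ≠ []) (e : s.length = t.length) (n : s ≠ t) (z y : List A) : ¬ Str s y z → ¬ Str t y z →
    sw s t (y ++ z) = sw s t y ++ sw s t z := by
  have m : ∀ {s y y' : List A}, y <:+ y' → ¬ Str s y' z → ¬ Str s y z := fun a b ⟨p, q, c, d, e, f, g⟩ => b ⟨p, q, c, d, e, f.trans a, g⟩
  have k : ∀ {s : List A} {c w}, ¬ s <+: c :: w → ¬ Str s (c :: w) z → ¬ s <+: c :: (w ++ z) := fun {s c w} a b d => by
    rcases List.prefix_or_prefix_of_prefix d (List.prefix_append (c :: w) z) with f | ⟨q, rfl⟩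
    · exact a f
    · exact b ⟨c :: w, q, by simp, by rintro rfl; simp at a, rfl, List.suffix_rfl, (List.prefix_append_right_inj (c :: w)).1 d⟩
  refine ind h (show t ≠ [] by rintro rfl; simp_all) (P := fun y => ¬ Str s y z → ¬ Str t y z → sw s t (y ++ z) = sw s t y ++ sw s t z)
    (by simp [sw]) (fun r ih a b => ?_) (fun r ih a b => ?_) (fun c w a b ih a' b' => ?_) y
  · rw [List.append_assoc, sw1 h, sw1 h, ih (m (List.suffix_append _ _) a) (m (List.suffix_append _ _) b), List.append_assoc]
  · rw [List.append_assoc, sw2 h e n, sw2 h e n, ih (m (List.suffix_append _ _) a) (m (List.suffix_append _ _) b), List.append_assoc]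
  · rw [List.cons_append, sw3 (k a a') (k b b'), sw3 a b, ih (m (List.suffix_cons _ _) a') (m (List.suffix_cons _ _) b'), List.cons_append]

theorem sw_sw (h : s ≠ []) (e : s.length = t.length) (n : s ≠ t) (no : ∀ a ∈ [s, t], ∀ b ∈ [s, t], NO a b) (w : List A) :
    sw s t (sw s t w) = w := by
  have h' : t ≠ [] := by rintro rfl; simp_all
  have k : ∀ a ∈ [s, t], ∀ w u p, p ≠ [] → a = p ++ u → u <+: sw s t w → u <+: w := fun a ha w => by
    have l : ∀ b ∈ [s, t], ∀ r u p, p ≠ [] → a = p ++ u → u <+: b ++ r → u = [] := fun b hb r u p p0 e1 e2 => by_contra fun c =>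
      no a ha b hb p u p0 c e1 (List.prefix_of_prefix_length_le e2 (List.prefix_append _ _) (by
        have := congrArg List.length e1
        simp only [List.mem_cons, List.not_mem_nil, or_false, List.length_append] at *
        rcases ha with rfl | rfl <;> rcases hb with rfl | rfl <;> omega))
    refine ind h h' (P := fun w => ∀ u p, p ≠ [] → a = p ++ u → u <+: sw s t w → u <+: w) (by simp [sw]) (fun r _ u p a b c => ?_)
      (fun r _ u p a b c => ?_) (fun c w a b ih u p a' b' c' => ?_) w
    · rw [sw1 h] at c; simp [l t (by simp) _ u p a b c]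
    · rw [sw2 h e n] at c; simp [l s (by simp) _ u p a b c]
    · rw [sw3 a b] at c'
      rcases u with _ | ⟨d, u⟩
      · simp
      · rw [List.cons_prefix_cons] at c' ⊢
        exact ⟨c'.1, ih u (p ++ [d]) (by simp) (by simp [b']) c'.2⟩
  refine ind h h' (P := fun w => sw s t (sw s t w) = w) (by simp [sw]) (fun r ih => by rw [sw1 h, sw2 h e n, ih])
    (fun r ih => by rw [sw2 h e n, sw1 h, ih]) (fun c w a b ih => ?_) w
  have l : ∀ a ∈ [s, t], a ≠ [] → ¬ a <+: c :: w → ¬ a <+: c :: sw s t w := fun a ha a0 n c => n (by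
    obtain ⟨d, u, rfl⟩ := List.exists_cons_of_ne_nil a0
    rw [List.cons_prefix_cons] at c ⊢
    exact ⟨c.1, k _ ha w u [d] (by simp) rfl c.2⟩)
  rw [sw3 a b, sw3 (l s (by simp) h a) (l t (by simp) h' b), ih]

theorem sw_fix (h : s ≠ []) (e : s.length = t.length) (n : s ≠ t) (w : List A) : sw s t w = w → ¬ s <:+: w := by
  refine ind h (show t ≠ [] by rintro rfl; simp_all) (P := fun w => sw s t w = w → ¬ s <:+: w) (by simpa using fun _ => h) (fun r _ a => ?_)
    (fun r _ a => ?_) (fun c w a b ih a' => ?_) w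
  · rw [sw1 h] at a; exact (n (List.append_inj a e.symm).1.symm).elim
  · rw [sw2 h e n] at a; exact (n (List.append_inj a e).1).elim
  · rw [sw3 a b, List.cons.injEq] at a'
    rw [List.infix_cons_iff]
    exact fun c => c.elim a (ih a'.2)

theorem sw_ev {Q : Type} (δ : Q → A → Q) (h : s ≠ []) (e : s.length = t.length) (n : s ≠ t) (k : ∀ q, s.foldl δ q = t.foldl δ q)
    (w : List A) : ∀ q, (sw s t w).foldl δ q = w.foldl δ q :=
  ind h (show t ≠ [] by rintro rfl; simp_all) (P := fun w => ∀ q, (sw s t w).foldl δ q = w.foldl δ q) (by simp [sw])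
    (fun r ih q => by simp [sw1 h, ih, k]) (fun r ih q => by simp [sw2 h e n, ih, k]) (fun c w a b ih q => by simp [sw3 a b, ih]) w

theorem sw_len (h : s ≠ []) (e : s.length = t.length) (n : s ≠ t) (w : List A) : (sw s t w).length = w.length :=
  ind h (show t ≠ [] by rintro rfl; simp_all) (P := fun w => (sw s t w).length = w.length) (by simp [sw])
    (fun r ih => by simp [sw1 h, ih, e]) (fun r ih => by simp [sw2 h e n, ih, e]) (fun c w a b ih => by simp [sw3 a b, ih]) w

def blk (a b : A) (m i : ℕ) : List A := (List.range (m + 4)).map fun t => if t ≤ 1 ∨ t = i + 3 then b else a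
def W (a b : A) (m : ℕ) : List A := (List.range m).flatMap (blk a b m)

variable {a b : A} {m i j : ℕ}

theorem bl : (blk a b m i).length = m + 4 := by simp [blk]
theorem b0 : blk a b m i ≠ [] := fun e => by simpa [bl] using congrArg List.length e

theorem bne (h : a ≠ b) (hi : i < m) (n : i ≠ j) : blk a b m i ≠ blk a b m j := fun e => by
  have := congrArg (·[i + 3]?) e
  simp [blk, show i + 3 < m + 4 by omega, n, h.symm] at this

theorem bno (h : a ≠ b) (hi : i < m) : NO (blk a b m i) (blk a b m j) := by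
  rintro p u p0 u0 e ⟨q, e'⟩
  have l := congrArg List.length e
  rw [bl, List.length_append] at l
  have := List.length_pos_iff.2 p0
  have := List.length_pos_iff.2 u0
  have k : ∀ t < u.length, t ≤ 1 → p.length + t ≤ 1 ∨ p.length + t = i + 3 := fun t ht t1 => by
    have e1 := congrArg (·[p.length + t]?) e
    have e2 := congrArg (·[t]?) e'
    simp only [List.getElem?_append_right (Nat.le_add_right _ _), Nat.add_sub_cancel_left, List.getElem?_append_left ht] at e1 e2
    rw [e2] at e1
    by_contra c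
    simp [blk, show p.length + t < m + 4 by omega, show t < m + 4 by omega, t1, c, h] at e1
  have := k 0 (by omega) (by omega)
  have := k 1 (by omega) le_rfl
  omega

theorem str1 (h : a ≠ b) (hi : i < m) (hj : j < m) {y z : List A} (h1 : Str (blk a b m i) y z) (h2 : Str (blk a b m j) y z) : i = j := by
  have key : ∀ {i j p q p' q'}, j < m → p ≠ [] → blk a b m i = p ++ q → blk a b m j = p' ++ q' → p <:+ y → p' <:+ y → q <+: z → q' <+: z →
      p.length ≤ p'.length → i < m → i = j := fun {i j p q p' q'} hj p0 e e' s s' r r' l hi => by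
    obtain ⟨o, rfl⟩ := List.suffix_of_suffix_length_le s s' l
    have l1 := congrArg List.length e
    have l2 := congrArg List.length e'
    simp only [bl, List.length_append] at l1 l2
    obtain ⟨v, rfl⟩ := List.prefix_of_prefix_length_le r' r (by omega)
    by_cases c : o = []
    · subst c
      obtain rfl : v = [] := List.length_eq_zero_iff.1 (by simp at l1 l2; omega)
      by_contra n
      exact bne h hi n (by simp [e, e'])
    · exact (bno (j := i) h hj o (p ++ q') c (by simp [p0]) (by simp [e']) ⟨v, by simp [e]⟩).elim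
  obtain ⟨p, q, p0, -, e, s, r⟩ := h1
  obtain ⟨p', q', p0', -, e', s', r'⟩ := h2
  rcases le_total p.length p'.length with l | l
  exacts [key hj p0 e e' s s' r r' l hi, (key hi p0' e' e s' s r' r l hj).symm]

def Col (P : (ℕ → List A) → ℕ → ℕ → ℕ → Prop) : Prop :=
  ∃ (K : Type) (_ : Finite K), ∀ h m, ∃ col : ℕ → K, ∀ i < m, ∀ j < m, i ≠ j → col i = col j → P h m i j

theorem Col.and {P Q R : (ℕ → List A) → ℕ → ℕ → ℕ → Prop} (h : Col P) (h' : Col Q)
    (k : ∀ h m i j, i < m → j < m → i ≠ j → P h m i j → Q h m i j → R h m i j) : Col R := by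
  obtain ⟨K, _, h⟩ := h
  obtain ⟨K', _, h'⟩ := h'
  refine ⟨K × K', inferInstance, fun g m => ?_⟩
  obtain ⟨c, h⟩ := h g m
  obtain ⟨c', h'⟩ := h' g m
  exact ⟨fun i => (c i, c' i), fun i hi j hj n e => k _ _ _ _ hi hj n (h i hi j hj n (Prod.ext_iff.1 e).1) (h' i hi j hj n (Prod.ext_iff.1 e).2)⟩

theorem col_ev (h : a ≠ b) : ∀ U : List (ℕ ⊕ A),
    Col fun g m i j => ev (sw (blk a b m i) (blk a b m j) ∘ g) U = sw (blk a b m i) (blk a b m j) (ev g U)
  | [] => ⟨Unit, inferInstance, fun _ _ => ⟨fun _ => (), by simp [ev, sw]⟩⟩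
  | c :: U => by
    have : Col fun g m i j => ¬ Str (blk a b m i) (ev g [c]) (ev g U) ∧ ¬ Str (blk a b m j) (ev g [c]) (ev g U) :=
      ⟨Prop, inferInstance, fun g m => ⟨fun i => Str (blk a b m i) (ev g [c]) (ev g U), fun i hi j hj n e =>
        ⟨fun s => n (str1 h hi hj s (e.mp s)), fun s => n (str1 h hi hj (e.mpr s) s)⟩⟩⟩
    refine this.and (col_ev h U) fun g m i j hi hj n s e => ?_
    have k : ∀ g, ev g (c :: U) = ev g [c] ++ ev g U := fun g => by simp [ev]
    rw [k, k, e, sw_app b0 (bl.trans bl.symm) (bne h hi n) _ _ s.1 s.2]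
    congr 1
    rcases c with x | c
    · simp [ev]
    · have l : ∀ i, ¬ blk a b m i <+: [c] := fun i p => by have := p.length_le; simp [bl] at this
      simp [ev, sw3 (l i) (l j), sw]

theorem col_sat (h : a ≠ b) (f : Fm A) : Col fun g m i j => Sat (sw (blk a b m i) (blk a b m j) ∘ g) f ↔ Sat g f := by
  induction f with
  | eq U V =>
    refine (col_ev h U).and (col_ev h V) fun g m i j hi hj n e e' => ?_
    simp only [Sat, e, e']
    refine Function.Involutive.injective (sw_sw b0 (bl.trans bl.symm) (bne h hi n) ?_) |>.eq_iff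
    simp [bno h hi, bno h hj]
  | reg x R hR =>
    obtain ⟨Q, _, M, rfl⟩ := hR
    refine ⟨Q → Q, inferInstance, fun g m => ⟨fun i q => (blk a b m i).foldl M.step q, fun i hi j hj n e => ?_⟩⟩
    exact iff_of_eq (congrArg (· ∈ M.accept) (sw_ev M.step b0 (bl.trans bl.symm) (bne h hi n) (congrFun e) (g x) M.start))
  | lenLe c k => exact ⟨Unit, inferInstance, fun _ _ => ⟨fun _ => (), fun i hi j _ n _ => by
      simp [Sat, sw_len b0 (bl.trans bl.symm) (bne h hi n)]⟩⟩
  | lenEq c k => exact ⟨Unit, inferInstance, fun _ _ => ⟨fun _ => (), fun i hi j _ n _ => by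
      simp [Sat, sw_len b0 (bl.trans bl.symm) (bne h hi n)]⟩⟩
  | not f ih => exact ih.and ih fun _ _ _ _ _ _ _ e _ => not_congr e
  | and f g ih ih' => exact ih.and ih' fun _ _ _ _ _ _ _ => and_congr
  | or f g ih ih' => exact ih.and ih' fun _ _ _ _ _ _ _ => or_congr

theorem Wl (m : ℕ) : (W a b m).length = m * (m + 4) := by simp [W, bl]

end

end Pool.Agent.H.MP_cb6225_lc
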